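import Pool.Agent.W2helper68.TW.C
import Pool.Agent.W2helper97.TX.Stm

/-!
# Piece P6 (variant of P4 with `‖s - 1‖ ^ M`)
-/

set_option autoImplicit false

open MeasureTheory Filter Topology Set Metric

namespace Pool.Agent.W2helper19.TX

open Pool.Agent.H437R2 Pool.Agent.W2helper97.TW Pool.Agent.W2helper68.TW

/-- bound for one function at height `T` -/
theorem one_boundM (m : ℕ) (C κ : ℝ) (hκ : 0 < κ) : ∃ C₁ : ℝ, 0 ≤ C₁ ∧ ∀ (U G : ℂ → ℂ) (L : List ℂ) (T : ℝ),
    3 ≤ T →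
    (∀ s : ℂ, -1 ≤ s.re → s.re ≤ 5 → 0 ≤ s.im → ‖U s‖ ≤ Real.exp (C * (1 + s.im))) →
    (∀ s : ℂ, 3 / 2 ≤ s.re → s.re ≤ 5 / 2 → κ * ‖s - 1‖ ^ m ≤ ‖U s‖) →
    (∀ ρ ∈ L, ρ ∈ closedBall (2 + T * Complex.I : ℂ) (5 / 2)) → Differentiable ℂ G →
    (∀ z ∈ closedBall (2 + T * Complex.I : ℂ) (5 / 2), G z ≠ 0) →
    (∀ v, U v = (L.map (fun r => v - r)).prod * G v) →
    ∀ z ∈ closedBall (2 + T * Complex.I : ℂ) (9 / 4), ‖deriv G z / G z‖ ≤ C₁ * T := by
  refine ⟨320 * (111 * (|C| * 3 + |Real.log κ|) + 1), by positivity, ?_⟩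
  intro U G L T hT hU hlow hL hG hGK hFG z hz
  set c : ℂ := 2 + T * Complex.I with hc
  have hcre : c.re = 2 := by simp [hc]
  have hcim : c.im = T := by simp [hc]
  have hlowc : κ ≤ ‖U c‖ := by
    have h1 := hlow c (by rw [hcre]; norm_num) (by rw [hcre]; norm_num)
    have h2 : 1 ≤ ‖c - 1‖ := by
      have := Complex.abs_re_le_norm (c - 1)
      rw [Complex.sub_re, hcre] at this
      norm_num at this
      exact this
    have h3 : 1 ≤ ‖c - 1‖ ^ m := one_le_pow₀ h2
    nlinarith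
  have hUc : U c ≠ 0 := by
    intro h
    rw [h, norm_zero] at hlowc
    linarith
  set M : ℝ := Real.exp (|C| * (T + 15 / 4)) with hM
  have hMb : ∀ w ∈ closedBall c (11 / 4), ‖U w‖ ≤ M := by
    intro w hw
    rw [mem_closedBall, dist_eq_norm] at hw
    have hre := (Complex.abs_re_le_norm (w - c)).trans hw
    have him := (Complex.abs_im_le_norm (w - c)).trans hw
    rw [Complex.sub_re, hcre, abs_le] at hre
    rw [Complex.sub_im, hcim, abs_le] at him
    refine (hU w (by linarith [hre.1]) (by linarith [hre.2]) (by linarith [him.1])).trans ?_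
    rw [hM]
    refine Real.exp_le_exp.2 ?_
    have h1 : C * (1 + w.im) ≤ |C| * (1 + w.im) :=
      mul_le_mul_of_nonneg_right (le_abs_self C) (by linarith [him.1])
    have h2 : |C| * (1 + w.im) ≤ |C| * (T + 15 / 4) :=
      mul_le_mul_of_nonneg_left (by linarith [him.2]) (abs_nonneg C)
    linarith
  obtain ⟨h1, h2⟩ := landau_fac U G c (r := 9 / 4) (R1 := 5 / 2) (R2 := 11 / 4) (M := M)
    (by norm_num) (by norm_num) (by norm_num) hUc hMb L hL hG hGK hFG
  have hlog : Real.log (M / ‖U c‖) ≤ |C| * (T + 15 / 4) + |Real.log κ| := by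
    rw [Real.log_div (Real.exp_pos _).ne' (norm_ne_zero_iff.2 hUc), Real.log_exp]
    have := Real.log_le_log hκ hlowc
    have h3 := neg_abs_le (Real.log κ)
    linarith
  set X : ℝ := |C| * (T + 15 / 4) + |Real.log κ| with hX
  have hX0 : 0 ≤ X := by positivity
  have hlogR : 1 / 11 ≤ Real.log ((11 / 4) / (5 / 2)) := by
    have := Real.one_sub_inv_le_log_of_pos (show (0:ℝ) < (11 / 4) / (5 / 2) by norm_num)
    norm_num at this ⊢
    linarith
  have hlogR2 : |Real.log ((5 / 2) / (11 / 4 - 5 / 2))| ≤ 10 := by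
    rw [abs_of_nonneg (Real.log_nonneg (by norm_num))]
    refine (Real.log_le_sub_one_of_pos (by norm_num)).trans (by norm_num)
  have hn : (L.length : ℝ) ≤ 11 * X := by
    have h3 : (L.length : ℝ) * (1 / 11) ≤ (L.length : ℝ) * Real.log ((11 / 4) / (5 / 2)) := by
      gcongr
    linarith
  refine (h2 z hz).trans ?_
  have e : 8 * (5 / 2 : ℝ) / (5 / 2 - 9 / 4) ^ 2 = 320 := by norm_num
  rw [e]
  have h4 : (L.length : ℝ) * |Real.log ((5 / 2) / (11 / 4 - 5 / 2))| ≤ (11 * X) * 10 := by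
    gcongr
  have hXT : X ≤ (|C| * 3 + |Real.log κ|) * T := by
    rw [hX]
    have h5 : |C| * (T + 15 / 4) ≤ |C| * (3 * T) :=
      mul_le_mul_of_nonneg_left (by linarith) (abs_nonneg C)
    have h6 : |Real.log κ| * 1 ≤ |Real.log κ| * T :=
      mul_le_mul_of_nonneg_left (by linarith) (abs_nonneg _)
    linarith
  nlinarith

/-- the logarithmic derivative of `U` on the line `Re s = 2` is bounded -/
theorem line_boundM (m : ℕ) (U : ℂ → ℂ) (hU : Differentiable ℂ U) (κ : ℝ) (hκ : 0 < κ)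
    (h : ∀ s : ℂ, 3 / 2 ≤ s.re → s.re ≤ 5 / 2 → κ * ‖s - 1‖ ^ m ≤ ‖U s‖ ∧
      ‖U s‖ ≤ κ⁻¹ * ‖s - 1‖ ^ m)
    (t : ℝ) : ‖deriv U (2 + t * Complex.I) / U (2 + t * Complex.I)‖ ≤
      2 * (3 / 2) ^ m * (κ⁻¹) ^ 2 := by
  set c : ℂ := 2 + t * Complex.I with hc
  have hcre : c.re = 2 := by simp [hc]
  have h1 : 1 ≤ ‖c - 1‖ := by
    have := Complex.abs_re_le_norm (c - 1)
    rw [Complex.sub_re, hcre] at this
    norm_num at this
    exact this
  have hlow := (h c (by rw [hcre]; norm_num) (by rw [hcre]; norm_num)).1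
  have hsph : ∀ w ∈ sphere c (1 / 2), ‖U w‖ ≤ κ⁻¹ * (3 / 2 * ‖c - 1‖) ^ m := by
    intro w hw
    rw [mem_sphere, dist_eq_norm] at hw
    have hre := (Complex.abs_re_le_norm (w - c)).trans hw.le
    rw [Complex.sub_re, hcre, abs_le] at hre
    refine (h w (by linarith [hre.1]) (by linarith [hre.2])).2.trans ?_
    have : ‖w - 1‖ ≤ 3 / 2 * ‖c - 1‖ := by
      have := norm_add_le (w - c) (c - 1)
      rw [sub_add_sub_cancel, hw] at this
      linarith
    have hki := inv_pos.2 hκ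
    gcongr
  have hd := Complex.norm_deriv_le_of_forall_mem_sphere_norm_le (show (0:ℝ) < 1 / 2 by norm_num)
    (hU.diffContOnCl (s := ball c (1 / 2))) hsph
  have hpos : 0 < κ * ‖c - 1‖ ^ m := by positivity
  rw [norm_div, div_le_iff₀ (hpos.trans_le hlow)]
  have h3 : κ⁻¹ * (3 / 2 * ‖c - 1‖) ^ m / (1 / 2) =
      2 * (3 / 2) ^ m * κ⁻¹ ^ 2 * (κ * ‖c - 1‖ ^ m) := by
    rw [mul_pow]
    field_simp
  calc ‖deriv U c‖ ≤ 2 * (3 / 2) ^ m * κ⁻¹ ^ 2 * (κ * ‖c - 1‖ ^ m) := hd.trans h3.le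
    _ ≤ 2 * (3 / 2) ^ m * κ⁻¹ ^ 2 * ‖U c‖ := by gcongr

theorem p6 : Pool.Agent.W2helper97.TX.P6 := by
  intro U V m₀ T₁ C κ hU hV hm hgr hκ hne hcmp hlim
  obtain ⟨C₁, hC₁0, hC₁⟩ := one_boundM m₀ C κ hκ
  have hUne : ∃ v, U v ≠ 0 := ⟨2, (hne 2 (by norm_num)).1⟩
  have hVne : ∃ v, V v ≠ 0 := ⟨2, (hne 2 (by norm_num)).2⟩
  obtain ⟨B, hB⟩ : ∃ B : ℝ, B = 4 * (3 / 2) ^ m₀ * κ⁻¹ ^ 2 := ⟨_, rfl⟩
  have hB0 : 0 ≤ B := by rw [hB]; positivity
  set D : ℝ := (27 / 2 * C₁ + B) with hD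
  have hD0 : 0 ≤ D := by positivity
  set M : ℝ := 2 * |Real.log κ| + 9 / 4 * D + 1 with hM
  obtain ⟨T₂, hT₂⟩ := (hlim.eventually_ge_atTop (Real.exp M)).exists_forall_of_atTop
  set T : ℝ := max (max 10 T₂) (2 * |T₁| + 3) with hT
  have hT10 : 10 ≤ T := (le_max_left _ _).trans (le_max_left _ _)
  have hTT₂ : T₂ ≤ T := (le_max_right _ _).trans (le_max_left _ _)
  have hTT₁ : 2 * |T₁| + 3 ≤ T := le_max_right _ _
  have habs := le_abs_self T₁
  have habs0 := abs_nonneg T₁
  -- the big ball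
  set c₀ : ℂ := (3 / 2 * T : ℝ) * Complex.I with hc₀
  have hc₀re : c₀.re = 0 := by simp [hc₀]
  have hc₀im : c₀.im = 3 / 2 * T := by simp [hc₀]
  have hmK : ∀ s ∈ closedBall c₀ T, mult U s = mult V s := by
    intro s hs
    apply hm
    rw [mem_closedBall, dist_eq_norm] at hs
    have := (Complex.abs_im_le_norm (s - c₀)).trans hs
    rw [Complex.sub_im, hc₀im, abs_le] at this
    linarith [this.1]
  obtain ⟨l, hl, hlre, hl'⟩ := exists_log U V hU hV hUne hVne c₀ T (by linarith) hmK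
  -- the rectangle lies in the ball
  have hrect : ∀ s : ℂ, -1 / 4 ≤ s.re → s.re ≤ 2 → T ≤ s.im → s.im ≤ 2 * T → s ∈ ball c₀ T := by
    intro s h1 h2 h3 h4
    rw [mem_ball, dist_eq_norm]
    have e : ‖s - c₀‖ ^ 2 = s.re ^ 2 + (s.im - 3 / 2 * T) ^ 2 := by
      rw [← Complex.normSq_eq_norm_sq, Complex.normSq_apply, Complex.sub_re, Complex.sub_im, hc₀re,
        hc₀im]
      ring
    have h5 : s.re ^ 2 ≤ 4 := by nlinarith
    have h6 : (s.im - 3 / 2 * T) ^ 2 ≤ T ^ 2 / 4 := by nlinarith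
    have h7 : ‖s - c₀‖ ^ 2 < T ^ 2 := by rw [e]; nlinarith
    exact lt_of_pow_lt_pow_left₀ 2 (by linarith) h7
  -- local bound for the derivative
  have hder : ∀ T' : ℝ, T ≤ T' → ∀ z ∈ ball c₀ T,
      z ∈ closedBall (2 + T' * Complex.I : ℂ) (9 / 4) → ‖deriv l z‖ ≤ 2 * C₁ * T' := by
    intro T' hT'
    refine deriv_log_bound U V hU hV hUne hVne T' C₁ ?_ ?_ l (ball c₀ T) isOpen_ball hl hl'
    · intro s hs
      apply hm
      rw [mem_closedBall, dist_eq_norm] at hs
      have := (Complex.abs_im_le_norm (s - (2 + T' * Complex.I))).trans hs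
      have e : (s - (2 + T' * Complex.I)).im = s.im - T' := by simp
      rw [e, abs_le] at this
      linarith [this.1]
    · rintro F G L (hF | hF) hL hG hGK hFG z hz
      · subst hF
        exact hC₁ F G L T' (by linarith) (fun s h1 h2 h3 => (hgr s h1 h2 h3).1)
          (fun s h1 h2 => (hcmp s h1 h2).1) hL hG hGK hFG z hz
      · subst hF
        exact hC₁ F G L T' (by linarith) (fun s h1 h2 h3 => (hgr s h1 h2 h3).2)
          (fun s h1 h2 => (hcmp s h1 h2).2.2.1) hL hG hGK hFG z hz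
  have hdiff : ∀ z ∈ ball c₀ T, DifferentiableAt ℂ l z := fun z hz =>
    (hl z hz).differentiableAt (isOpen_ball.mem_nhds hz)
  -- horizontal differences
  have hhor : ∀ T' : ℝ, T ≤ T' → T' ≤ 2 * T → ∀ x : ℝ, -1 / 4 ≤ x → x ≤ 2 →
      ‖l (x + T' * Complex.I) - l (2 + T' * Complex.I)‖ ≤ 9 / 2 * C₁ * T' := by
    intro T' h1 h2 x hx1 hx2
    have hconv : Convex ℝ (ball c₀ T ∩ closedBall (2 + T' * Complex.I : ℂ) (9 / 4)) :=
      (convex_ball _ _).inter (convex_closedBall _ _)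
    have m1 : (2 + T' * Complex.I : ℂ) ∈ ball c₀ T ∩ closedBall (2 + T' * Complex.I : ℂ) (9 / 4) :=
      ⟨hrect _ (by simp; norm_num) (by simp) (by simpa using h1) (by simpa using h2),
        mem_closedBall_self (by norm_num)⟩
    have hnx : ‖(x + T' * Complex.I : ℂ) - (2 + T' * Complex.I)‖ ≤ 9 / 4 := by
      have e : (x + T' * Complex.I : ℂ) - (2 + T' * Complex.I) = ((x - 2 : ℝ) : ℂ) := by
        push_cast; ring
      rw [e, Complex.norm_real, Real.norm_eq_abs, abs_le]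
      constructor <;> linarith
    have m2 : (x + T' * Complex.I : ℂ) ∈ ball c₀ T ∩ closedBall (2 + T' * Complex.I : ℂ) (9 / 4) :=
      ⟨hrect _ (by simpa using hx1) (by simpa using hx2) (by simpa using h1) (by simpa using h2), by
        rw [mem_closedBall, dist_eq_norm]; exact hnx⟩
    have h3 := hconv.norm_image_sub_le_of_norm_deriv_le (f := l) (C := 2 * C₁ * T')
      (fun z hz => hdiff z hz.1) (fun z hz => hder T' h1 z hz.1 hz.2) m1 m2
    refine h3.trans ?_
    have h4 : 0 ≤ 2 * C₁ * T' := by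
      have : 0 ≤ T' := by linarith
      positivity
    calc 2 * C₁ * T' * ‖(x + T' * Complex.I : ℂ) - (2 + T' * Complex.I)‖ ≤ 2 * C₁ * T' * (9 / 4) := by
          gcongr
      _ = 9 / 2 * C₁ * T' := by ring
  -- the line 2
  have hUcmp := fun s h1 h2 => And.intro (hcmp s h1 h2).1 (hcmp s h1 h2).2.1
  have hVcmp := fun s h1 h2 => And.intro (hcmp s h1 h2).2.2.1 (hcmp s h1 h2).2.2.2
  have hline : ∀ t : ℝ, T ≤ t → t ≤ 2 * T → ‖deriv l (2 + t * Complex.I)‖ ≤ B := by
    intro t h1 h2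
    have m : (2 + t * Complex.I : ℂ) ∈ ball c₀ T :=
      hrect _ (by simp; norm_num) (by simp) (by simpa using h1) (by simpa using h2)
    rw [hl' _ m (hne _ (by simp)).1]
    have b1 := line_boundM m₀ U hU κ hκ hUcmp t
    have b2 := line_boundM m₀ V hV κ hκ hVcmp t
    calc _ ≤ ‖deriv U (2 + t * Complex.I) / U (2 + t * Complex.I)‖ +
          ‖deriv V (2 + t * Complex.I) / V (2 + t * Complex.I)‖ := norm_sub_le _ _
      _ ≤ B := by rw [hB]; linarith
  have hvert : ‖l (2 + T * Complex.I) - l (2 + (2 * T : ℝ) * Complex.I)‖ ≤ B * T := by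
    have hseg : ∀ z ∈ segment ℝ (2 + (2 * T : ℝ) * Complex.I : ℂ) (2 + T * Complex.I),
        ∃ t : ℝ, T ≤ t ∧ t ≤ 2 * T ∧ z = 2 + t * Complex.I := by
      intro z hz
      obtain ⟨a, b, ha, hb, hab, rfl⟩ := hz
      refine ⟨a * (2 * T) + b * T, by nlinarith, by nlinarith, ?_⟩
      have hab' : (a : ℂ) + b = 1 := by exact_mod_cast hab
      simp only [Complex.real_smul]
      push_cast
      linear_combination 2 * hab'
    have h3 := (convex_segment (𝕜 := ℝ) (2 + (2 * T : ℝ) * Complex.I : ℂ)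
      (2 + T * Complex.I)).norm_image_sub_le_of_norm_deriv_le (f := l) (C := B)
      (fun z hz => by
        obtain ⟨t, h1, h2, rfl⟩ := hseg z hz
        exact hdiff _ (hrect _ (by simp; norm_num) (by simp) (by simpa using h1)
          (by simpa using h2)))
      (fun z hz => by
        obtain ⟨t, h1, h2, rfl⟩ := hseg z hz
        exact hline t h1 h2)
      (left_mem_segment ℝ _ _) (right_mem_segment ℝ _ _)
    refine h3.trans ?_
    have e : (2 + T * Complex.I : ℂ) - (2 + (2 * T : ℝ) * Complex.I) = ((-T : ℝ) : ℂ) * Complex.I := by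
      push_cast; ring
    rw [e, norm_mul, Complex.norm_I, Complex.norm_real, Real.norm_eq_abs, abs_neg,
      abs_of_nonneg (by linarith), mul_one]
  have hre2 : ∀ t : ℝ, T ≤ t → t ≤ 2 * T → (l (2 + t * Complex.I)).re ≤ 2 * |Real.log κ| := by
    intro t h1 h2
    have m : (2 + t * Complex.I : ℂ) ∈ ball c₀ T :=
      hrect _ (by simp; norm_num) (by simp) (by simpa using h1) (by simpa using h2)
    have e := hlre _ m (hne _ (by simp)).1
    have b := hcmp (2 + t * Complex.I) (by simp; norm_num) (by simp; norm_num)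
    have hpos : 0 < ‖(2 + t * Complex.I : ℂ) - 1‖ := by
      rw [norm_pos_iff]
      intro h
      have := congrArg Complex.re h
      norm_num at this
    have hV0 : 0 < ‖V (2 + t * Complex.I)‖ := (mul_pos hκ (pow_pos hpos m₀)).trans_le b.2.2.1
    have h3 : Real.exp ((l (2 + t * Complex.I)).re) ≤ Real.exp (2 * |Real.log κ|) := by
      rw [e, div_le_iff₀ hV0]
      have h4 : κ⁻¹ ^ 2 ≤ Real.exp (2 * |Real.log κ|) := by
        have : κ⁻¹ ≤ Real.exp (|Real.log κ|) := by
          rw [← Real.exp_log (inv_pos.2 hκ), Real.log_inv]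
          exact Real.exp_le_exp.2 (neg_le_abs _)
        have e2 : Real.exp (2 * |Real.log κ|) = Real.exp (|Real.log κ|) ^ 2 := by
          rw [← Real.exp_nat_mul]; norm_num
        rw [e2]
        have := inv_pos.2 hκ
        gcongr
      calc ‖U (2 + t * Complex.I)‖ ≤ κ⁻¹ * ‖(2 + t * Complex.I : ℂ) - 1‖ ^ m₀ := b.2.1
        _ = κ⁻¹ ^ 2 * (κ * ‖(2 + t * Complex.I : ℂ) - 1‖ ^ m₀) := by field_simp
        _ ≤ Real.exp (2 * |Real.log κ|) * ‖V (2 + t * Complex.I)‖ := by
            have := b.2.2.1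
            gcongr
    exact Real.exp_le_exp.1 h3
  have hre1 : ∀ t : ℝ, T ≤ t → t ≤ 2 * T →
      M ≤ (l (((-1 / 4 : ℝ) : ℂ) + t * Complex.I)).re := by
    intro t h1 h2
    have m : (((-1 / 4 : ℝ) : ℂ) + t * Complex.I : ℂ) ∈ ball c₀ T :=
      hrect _ (by simp) (by simp; norm_num) (by simpa using h1) (by simpa using h2)
    have h3 := hT₂ t (hTT₂.trans h1)
    have e0 : (((-1 / 4 : ℝ) : ℂ) + t * Complex.I : ℂ) = -1 / 4 + t * Complex.I := by push_cast; ring
    rw [← e0] at h3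
    have hU0 : U (((-1 / 4 : ℝ) : ℂ) + t * Complex.I) ≠ 0 := by
      intro h
      rw [h, norm_zero, zero_div] at h3
      exact absurd h3 (not_le.2 (Real.exp_pos _))
    rw [← hlre _ m hU0] at h3
    exact Real.exp_le_exp.1 h3
  -- Cauchy
  have hcauchy := Complex.integral_boundary_rect_eq_zero_of_differentiableOn l
    (((-1 / 4 : ℝ) : ℂ) + T * Complex.I) (2 + (2 * T : ℝ) * Complex.I) (by
      intro z hz
      rw [Complex.mem_reProdIm] at hz
      have e1 : (((-1 / 4 : ℝ) : ℂ) + T * Complex.I).re = -1 / 4 := by simp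
      have e2 : (((-1 / 4 : ℝ) : ℂ) + T * Complex.I).im = T := by simp
      have e3 : (2 + (2 * T : ℝ) * Complex.I).re = 2 := by simp
      have e4 : (2 + (2 * T : ℝ) * Complex.I).im = 2 * T := by simp
      rw [e1, e2, e3, e4, uIcc_of_le (by norm_num), uIcc_of_le (by linarith)] at hz
      exact (hdiff z (hrect z hz.1.1 hz.1.2 hz.2.1 hz.2.2)).differentiableWithinAt)
  have e1 : (((-1 / 4 : ℝ) : ℂ) + T * Complex.I).re = -1 / 4 := by simp
  have e2 : (((-1 / 4 : ℝ) : ℂ) + T * Complex.I).im = T := by simp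
  have e3 : (2 + (2 * T : ℝ) * Complex.I).re = 2 := by simp
  have e4 : (2 + (2 * T : ℝ) * Complex.I).im = 2 * T := by simp
  rw [e1, e2, e3, e4] at hcauchy
  have hcont : ∀ (f : ℝ → ℂ) (a b : ℝ), Continuous f → a ≤ b → (∀ x ∈ Icc a b, f x ∈ ball c₀ T) →
      IntervalIntegrable (fun x => l (f x)) volume a b := by
    intro f a b hf hab hfm
    apply ContinuousOn.intervalIntegrable
    rw [uIcc_of_le hab]
    exact hl.continuousOn.comp hf.continuousOn hfm
  have i1 : IntervalIntegrable (fun x : ℝ => l (x + T * Complex.I)) volume (-1 / 4) 2 :=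
    hcont (fun x : ℝ => x + T * Complex.I) _ _ (by fun_prop) (by norm_num) (fun x hx => hrect _
      (by simpa using hx.1) (by simpa using hx.2) (by simp) (by simp; linarith))
  have i2 : IntervalIntegrable (fun x : ℝ => l (x + (2 * T : ℝ) * Complex.I)) volume (-1 / 4) 2 :=
    hcont (fun x : ℝ => x + (2 * T : ℝ) * Complex.I) _ _ (by fun_prop) (by norm_num)
      (fun x hx => hrect _
      (by simpa using hx.1) (by simpa using hx.2) (by simp; linarith) (by simp))
  have i3 : IntervalIntegrable (fun y : ℝ => l (((2 : ℝ) : ℂ) + y * Complex.I)) volume T (2 * T) :=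
    hcont (fun y : ℝ => ((2 : ℝ) : ℂ) + y * Complex.I) _ _ (by fun_prop) (by linarith)
      (fun y hy => hrect _ (by simp; norm_num) (by simp) (by simpa using hy.1) (by simpa using hy.2))
  have i4 : IntervalIntegrable (fun y : ℝ => l (((-1 / 4 : ℝ) : ℂ) + y * Complex.I)) volume T (2 * T) :=
    hcont (fun y : ℝ => ((-1 / 4 : ℝ) : ℂ) + y * Complex.I) _ _ (by fun_prop) (by linarith)
      (fun y hy => hrect _ (by simp) (by simp; norm_num) (by simpa using hy.1) (by simpa using hy.2))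
  rw [← intervalIntegral.integral_sub i1 i2] at hcauchy
  have him := congrArg Complex.im hcauchy
  simp only [smul_eq_mul, Complex.sub_im, Complex.add_im, Complex.mul_im, Complex.I_re,
    Complex.I_im, zero_mul, one_mul, zero_add, Complex.zero_im] at him
  have r3 : (∫ y : ℝ in T..(2 * T), l (((2 : ℝ) : ℂ) + y * Complex.I)).re =
      ∫ y : ℝ in T..(2 * T), (l (((2 : ℝ) : ℂ) + y * Complex.I)).re := by
    have := Complex.reCLM.intervalIntegral_comp_comm i3
    simpa using this.symm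
  have r4 : (∫ y : ℝ in T..(2 * T), l (((-1 / 4 : ℝ) : ℂ) + y * Complex.I)).re =
      ∫ y : ℝ in T..(2 * T), (l (((-1 / 4 : ℝ) : ℂ) + y * Complex.I)).re := by
    have := Complex.reCLM.intervalIntegral_comp_comm i4
    simpa using this.symm
  rw [r3, r4] at him
  have u3 : ∫ y : ℝ in T..(2 * T), (l (((2 : ℝ) : ℂ) + y * Complex.I)).re ≤
      ∫ _y : ℝ in T..(2 * T), 2 * |Real.log κ| := by
    refine intervalIntegral.integral_mono_on (by linarith) ?_ intervalIntegrable_const ?_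
    · exact ⟨i3.1.re, i3.2.re⟩
    · intro y hy
      have := hre2 y hy.1 hy.2
      exact_mod_cast this
  have u4 : ∫ _y : ℝ in T..(2 * T), M ≤
      ∫ y : ℝ in T..(2 * T), (l (((-1 / 4 : ℝ) : ℂ) + y * Complex.I)).re := by
    refine intervalIntegral.integral_mono_on (by linarith) intervalIntegrable_const ?_ ?_
    · exact ⟨i4.1.re, i4.2.re⟩
    · intro y hy
      exact hre1 y hy.1 hy.2
  rw [intervalIntegral.integral_const, smul_eq_mul] at u3 u4
  have u1 : ‖∫ x : ℝ in (-1 / 4)..2, (l (x + T * Complex.I) - l (x + (2 * T : ℝ) * Complex.I))‖ ≤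
      (D * T) * |2 - (-1 / 4)| := by
    refine intervalIntegral.norm_integral_le_of_norm_le_const ?_
    intro x hx
    rw [uIoc_of_le (by norm_num)] at hx
    have b1 := hhor T le_rfl (by linarith) x hx.1.le hx.2
    have b2 := hhor (2 * T) (by linarith) le_rfl x hx.1.le hx.2
    have e : l (x + T * Complex.I) - l (x + (2 * T : ℝ) * Complex.I) =
        (l (x + T * Complex.I) - l (2 + T * Complex.I)) +
        (l (2 + T * Complex.I) - l (2 + (2 * T : ℝ) * Complex.I)) -
        (l (x + (2 * T : ℝ) * Complex.I) - l (2 + (2 * T : ℝ) * Complex.I)) := by ring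
    rw [e]
    refine (norm_sub_le _ _).trans ?_
    have b3 := norm_add_le (l (x + T * Complex.I) - l (2 + T * Complex.I))
      (l (2 + T * Complex.I) - l (2 + (2 * T : ℝ) * Complex.I))
    rw [hD]
    nlinarith
  have u2 := (Complex.abs_im_le_norm _).trans u1
  rw [abs_le] at u2
  have e5 : |(2:ℝ) - (-1 / 4)| = 9 / 4 := by norm_num
  rw [e5] at u2
  have hTpos : 0 < T := by linarith
  clear_value M D
  have hfin : M * T ≤ 2 * |Real.log κ| * T + 9 / 4 * D * T := by linarith [u2.1, u2.2]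
  have : M * T = 2 * |Real.log κ| * T + 9 / 4 * D * T + T := by rw [hM]; ring
  linarith

end Pool.Agent.W2helper19.TX
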